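import Pool.Agent.H93.EN.Targets4

/-!
# Row FUB of the board `en_modules`: Fubini for ball integrals over a shell
-/

set_option autoImplicit false

namespace Pool.Agent.H66.EN

open MeasureTheory Set Metric Filter Topology Pool.Agent.H93.EN
open Pool.Agent.H93.BL hiding T_B1 T_B2 T_B3 T_SB T_SC

theorem fub (h1 : T_INT) : T_FUB := by
  intro ι D a b δ hδ
  obtain ⟨hΩ, hfin, hf, hf01, hrho, hlip, -⟩ := h1 ι D
  have hS : ∀ c d : ℝ, MeasurableSet (D.Sh c d) := by
    intro c d
    have : D.Sh c d = D.P.Ω ∩ (D.rho ⁻¹' Icc c d) := by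
      ext x
      simp only [Dat.Sh, mem_setOf_eq, mem_inter_iff, mem_preimage, mem_Icc]
    rw [this]
    exact hΩ.inter (hrho measurableSet_Icc)
  have hSΩ : ∀ c d : ℝ, D.Sh c d ⊆ D.P.Ω := fun c d x hx => hx.1
  set S := D.Sh a b with hSdef
  set T := D.Sh (a - δ) (b + δ) with hTdef
  have hSm : MeasurableSet S := hS a b
  have hTm : MeasurableSet T := hS (a - δ) (b + δ)
  have : IsFiniteMeasure (volume.restrict S) :=
    ⟨by rw [Measure.restrict_apply_univ]; exact (measure_mono (hSΩ a b)).trans_lt hfin⟩
  have : IsFiniteMeasure (volume.restrict D.P.Ω) :=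
    ⟨by rw [Measure.restrict_apply_univ]; exact hfin⟩
  -- the kernel
  set K : Set (ℂ × ℂ) := {p | dist p.2 p.1 < δ} with hK
  have hKm : MeasurableSet K :=
    measurableSet_lt (measurable_snd.dist measurable_fst) measurable_const
  set k : ℂ → ℂ → ℝ := fun x y => K.indicator (fun p => D.f0 p.2) (x, y) with hk
  have hkm : Measurable (Function.uncurry k) := by
    have : Function.uncurry k = K.indicator (fun p : ℂ × ℂ => D.f0 p.2) := by
      ext p
      rfl
    rw [this]
    exact (hf.comp measurable_snd).indicator hKm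
  have hk1 : ∀ x y, k x y = (ball x δ).indicator D.f0 y := by
    intro x y
    simp only [hk, hK, indicator, mem_setOf_eq, mem_ball]
  have hk2 : ∀ x y, k x y = (ball y δ).indicator (fun _ => D.f0 y) x := by
    intro x y
    simp only [hk, hK, indicator, mem_setOf_eq, mem_ball, dist_comm]
  have hkint : Integrable (Function.uncurry k) ((volume.restrict S).prod (volume.restrict D.P.Ω)) := by
    refine Integrable.of_bound hkm.aestronglyMeasurable 1 (Eventually.of_forall ?_)
    rintro ⟨x, y⟩
    change ‖k x y‖ ≤ 1
    rw [hk1]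
    by_cases hy : y ∈ ball x δ
    · rw [indicator_of_mem hy, Real.norm_eq_abs, abs_of_nonneg (hf01 y).1]
      exact (hf01 y).2
    · rw [indicator_of_notMem hy, norm_zero]
      exact zero_le_one
  have e1 : ∫ x in S, (∫ y in ball x δ ∩ D.P.Ω, D.f0 y) = ∫ x in S, ∫ y in D.P.Ω, k x y := by
    refine integral_congr_ae (Eventually.of_forall fun x => ?_)
    change ∫ y in ball x δ ∩ D.P.Ω, D.f0 y = ∫ y in D.P.Ω, k x y
    simp only [hk1]
    rw [integral_indicator measurableSet_ball, Measure.restrict_restrict measurableSet_ball]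
  have e2 : ∫ x in S, ∫ y in D.P.Ω, k x y = ∫ y in D.P.Ω, ∫ x in S, k x y :=
    integral_integral_swap hkint
  have hvol : ∀ y : ℂ, (volume.restrict S).real (ball y δ) ≤ Real.pi * δ ^ 2 := by
    intro y
    have h1 : (volume.restrict S).real (ball y δ) ≤ volume.real (ball y δ) := by
      rw [measureReal_def, measureReal_def]
      refine ENNReal.toReal_mono measure_ball_lt_top.ne ?_
      exact Measure.restrict_apply_le _ _
    refine h1.trans (le_of_eq ?_)
    rw [measureReal_def, Complex.volume_ball, ENNReal.toReal_mul, ENNReal.toReal_pow,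
      ENNReal.toReal_ofReal hδ.le, mul_comm]
    rfl
  have hpt : ∀ y, y ∈ D.P.Ω → ∫ x in S, k x y ≤ Real.pi * δ ^ 2 * T.indicator D.f0 y := by
    intro y hy
    have e3 : ∫ x in S, k x y = (volume.restrict S).real (ball y δ) * D.f0 y := by
      simp only [hk2]
      rw [integral_indicator measurableSet_ball, setIntegral_const, smul_eq_mul]
    rw [e3]
    by_cases hyT : y ∈ T
    · rw [indicator_of_mem hyT]
      exact mul_le_mul_of_nonneg_right (hvol y) (hf01 y).1
    · rw [indicator_of_notMem hyT, mul_zero]
      have h0 : (volume.restrict S) (ball y δ) = 0 := by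
        rw [Measure.restrict_apply measurableSet_ball]
        have : ball y δ ∩ S = ∅ := by
          rw [eq_empty_iff_forall_notMem]
          rintro x ⟨hx, hxS⟩
          apply hyT
          have h2 := (hlip x y).trans_lt (mem_ball.1 hx)
          rw [abs_lt] at h2
          have h3 : a ≤ D.rho x := hxS.2.1
          have h4 : D.rho x ≤ b := hxS.2.2
          exact ⟨hy, by linarith [h2.2], by linarith [h2.1]⟩
        rw [this, measure_empty]
      rw [measureReal_def, h0, ENNReal.toReal_zero, zero_mul]
  have hTi : Integrable (fun y => Real.pi * δ ^ 2 * T.indicator D.f0 y)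
      (volume.restrict D.P.Ω) := by
    refine Integrable.const_mul ?_ _
    refine Integrable.of_bound (hf.indicator hTm).aestronglyMeasurable 1
      (Eventually.of_forall fun y => ?_)
    by_cases hy : y ∈ T
    · rw [indicator_of_mem hy, Real.norm_eq_abs, abs_of_nonneg (hf01 y).1]
      exact (hf01 y).2
    · rw [indicator_of_notMem hy, norm_zero]
      exact zero_le_one
  have e4 : ∫ y in D.P.Ω, Real.pi * δ ^ 2 * T.indicator D.f0 y =
      Real.pi * δ ^ 2 * ∫ y in T, D.f0 y := by
    rw [integral_const_mul, integral_indicator hTm, Measure.restrict_restrict hTm,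
      inter_eq_left.2 (hSΩ _ _)]
  rw [e1, e2, ← e4]
  refine setIntegral_mono_on ?_ hTi hΩ hpt
  exact hkint.integral_prod_right

end Pool.Agent.H66.EN
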